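import Pool.Agent.Helper88.FL.Htpy

/-!
# Project FLQ, module U5: small subpresheaves of essentially small Kan presheaves
-/

open CategoryTheory MonoidalCategory Opposite HomotopicalAlgebra CartesianMonoidalCategory

set_option autoImplicit false

namespace Pool.Agent.Helper81.FLQ

open _root_.FL

universe u

/-- terms of the closure -/
inductive Tm {A : Type} [SmallCategory A] (K : Aᵒᵖ → SSet.{0}) :
    Aᵒᵖ → SimplexCategoryᵒᵖ → Type
  | gen (a : Aᵒᵖ) (k : SimplexCategoryᵒᵖ) (x : (K a).obj k) : Tm K a k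
  | act {a b : Aᵒᵖ} (f : a ⟶ b) {k : SimplexCategoryᵒᵖ} (t : Tm K a k) : Tm K b k
  | map {a : Aᵒᵖ} {k l : SimplexCategoryᵒᵖ} (α : k ⟶ l) (t : Tm K a k) : Tm K a l
  | hot {a : Aᵒᵖ} {k : SimplexCategoryᵒᵖ} (s : k.unop ⟶ SimplexCategory.mk 1) (t : Tm K a k) :
      Tm K a k
  | fil {a : Aᵒᵖ} {n : ℕ} (i : Fin (n + 2))
      (t : ∀ j : Fin (n + 2), j ≠ i → Tm K a (op (SimplexCategory.mk n))) :
      Tm K a (op (SimplexCategory.mk (n + 1)))

/-! ### Kan complexes in terms of elements -/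

open Classical in
/-- a chosen filler -/
noncomputable def fillE {Z : SSet.{u}} {n : ℕ} {i : Fin (n + 2)}
    (y : ∀ j : Fin (n + 2), j ≠ i → Z.obj (op (SimplexCategory.mk n))) :
    Z.obj (op (SimplexCategory.mk (n + 1))) :=
  if h : ∃ w : Z.obj (op (SimplexCategory.mk (n + 1))),
    ∀ j hj, Z.map (SimplexCategory.δ j).op w = y j hj
  then h.choose
  else Z.map (SimplexCategory.σ (0 : Fin (n + 1))).op
    (y (i.succAbove 0) (Fin.succAbove_ne i 0))

/-- evaluation of terms -/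
noncomputable def ev {A : Type} [SmallCategory A] {F : Aᵒᵖ ⥤ SSet.{1}} {K : Aᵒᵖ → SSet.{0}}
    (g : ∀ a, SSet.uliftFunctor.{1, 0}.obj (K a) ⟶ F.obj a)
    (H : ∀ a, F.obj a ⊗ SSet.stdSimplex.obj (SimplexCategory.mk 1) ⟶ F.obj a) :
    ∀ {a : Aᵒᵖ} {k : SimplexCategoryᵒᵖ}, Tm K a k → (F.obj a).obj k
  | _, _, .gen a k x => (g a).app k (ULift.up x)
  | _, _, .act f t => (F.map f).app _ (ev g H t)
  | a, _, .map α t => (F.obj a).map α (ev g H t)
  | a, k, .hot s t => (H a).app k (ev g H t, SSet.stdSimplex.objEquiv.symm s)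
  | _, _, .fil _ t => fillE (fun j hj => ev g H (t j hj))

open Simplicial

/-- compatible families of faces -/
def CompE {Z : SSet.{u}} {n : ℕ} {i : Fin (n + 2)}
    (y : ∀ j : Fin (n + 2), j ≠ i → Z.obj (op ⦋n⦌)) : Prop :=
  match n, i, y with
  | 0, _, _ => True
  | n + 1, i, y => ∀ (j k : Fin (n + 3)) (hj : j ≠ i) (hk : k ≠ i) (hjk : j < k),
      Z.map (SimplexCategory.δ (k.pred (Fin.ne_zero_of_lt hjk))).op (y j hj) =
      Z.map (SimplexCategory.δ (j.castPred (Fin.ne_last_of_lt hjk))).op (y k hk)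

theorem δ_symm {Z : SSet.{u}} {n : ℕ} (j : Fin (n + 2)) (w : Z.obj (op ⦋n + 1⦌)) :
    SSet.stdSimplex.δ j ≫ SSet.yonedaEquiv.symm w =
      SSet.yonedaEquiv.symm (Z.map (SimplexCategory.δ j).op w) := by
  apply SSet.yonedaEquiv.injective
  rw [Equiv.apply_symm_apply]
  rfl

theorem compE_iff {Z : SSet.{u}} {n : ℕ} {i : Fin (n + 2)}
    (y : ∀ j : Fin (n + 2), j ≠ i → Z.obj (op ⦋n⦌)) :
    SSet.horn.IsCompatible (i := i) (fun j hj => SSet.yonedaEquiv.symm (y j hj)) ↔ CompE y := by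
  cases n with
  | zero => exact Iff.rfl
  | succ n =>
    rw [SSet.horn.isCompatible_iff]
    unfold CompE
    simp only [δ_symm, Equiv.apply_eq_iff_eq]

theorem kan_iff {Z : SSet.{u}} : SSet.KanComplex Z ↔
    ∀ (n : ℕ) (i : Fin (n + 2)) (y : ∀ j : Fin (n + 2), j ≠ i → Z.obj (op ⦋n⦌)), CompE y →
      ∃ w : Z.obj (op ⦋n + 1⦌), ∀ j hj, Z.map (SimplexCategory.δ j).op w = y j hj := by
  rw [SSet.KanComplex.iff]
  constructor
  · intro h n i y hy
    obtain ⟨φ, hφ⟩ := h _ ((compE_iff y).2 hy)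
    refine ⟨SSet.yonedaEquiv φ, fun j hj => ?_⟩
    apply SSet.yonedaEquiv.symm.injective
    rw [← δ_symm, Equiv.symm_apply_apply, hφ]
  · intro h n i f hf
    obtain ⟨w, hw⟩ := h n i (fun j hj => SSet.yonedaEquiv (f j hj)) ((compE_iff _).1 (by
      simpa only [Equiv.symm_apply_apply] using hf))
    refine ⟨SSet.yonedaEquiv.symm w, fun j hj => ?_⟩
    rw [δ_symm, hw, Equiv.symm_apply_apply]

theorem fillE_spec {Z : SSet.{u}} (hZ : SSet.KanComplex Z) {n : ℕ} {i : Fin (n + 2)}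
    (y : ∀ j : Fin (n + 2), j ≠ i → Z.obj (op ⦋n⦌)) (hy : CompE y) (j : Fin (n + 2))
    (hj : j ≠ i) : Z.map (SimplexCategory.δ j).op (fillE y) = y j hj := by
  have h := kan_iff.1 hZ n i y hy
  unfold fillE
  rw [dif_pos h]
  exact h.choose_spec j hj

/-! ### Small subpresheaves -/

section Sub

variable {A : Type} [SmallCategory A]

/-- subpresheaves with small values -/
structure Sub (F : Aᵒᵖ ⥤ SSet.{1}) where
  P : ∀ (a : Aᵒᵖ) (k : SimplexCategoryᵒᵖ), Set ((F.obj a).obj k)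
  act : ∀ {a b : Aᵒᵖ} (f : a ⟶ b) {k : SimplexCategoryᵒᵖ} (x : (F.obj a).obj k),
    x ∈ P a k → (F.map f).app k x ∈ P b k
  map : ∀ {a : Aᵒᵖ} {k l : SimplexCategoryᵒᵖ} (α : k ⟶ l) (x : (F.obj a).obj k),
    x ∈ P a k → (F.obj a).map α x ∈ P a l
  small : ∀ a k, Small.{0} (P a k)

namespace Sub

variable {F : Aᵒᵖ ⥤ SSet.{1}} (T : Sub F)

attribute [instance] Sub.small

/-- elements -/
noncomputable def val {a : Aᵒᵖ} {k : SimplexCategoryᵒᵖ} (x : Shrink.{0} (T.P a k)) :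
    (F.obj a).obj k := ((equivShrink (T.P a k)).symm x).1

theorem val_mem {a : Aᵒᵖ} {k : SimplexCategoryᵒᵖ} (x : Shrink.{0} (T.P a k)) :
    T.val x ∈ T.P a k := ((equivShrink (T.P a k)).symm x).2

/-- constructor -/
noncomputable def mk' {a : Aᵒᵖ} {k : SimplexCategoryᵒᵖ} (x : (F.obj a).obj k)
    (hx : x ∈ T.P a k) : Shrink.{0} (T.P a k) := equivShrink (T.P a k) ⟨x, hx⟩

theorem val_mk' {a : Aᵒᵖ} {k : SimplexCategoryᵒᵖ} (x : (F.obj a).obj k) (hx : x ∈ T.P a k) :
    T.val (T.mk' x hx) = x := by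
  unfold val mk'
  rw [Equiv.symm_apply_apply]

theorem val_inj {a : Aᵒᵖ} {k : SimplexCategoryᵒᵖ} {x y : Shrink.{0} (T.P a k)}
    (h : T.val x = T.val y) : x = y :=
  (equivShrink (T.P a k)).symm.injective (Subtype.ext h)

/-- the values of the small presheaf -/
noncomputable def objS (a : Aᵒᵖ) : SSet.{0} where
  obj k := Shrink.{0} (T.P a k)
  map α := ↾ fun x => T.mk' ((F.obj a).map α (T.val x)) (T.map α _ (T.val_mem x))
  map_id k := by
    refine ConcreteCategory.hom_ext _ _ fun x => T.val_inj ?_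
    exact (T.val_mk' _ _).trans (sset_id (F.obj a) _)
  map_comp α β := by
    refine ConcreteCategory.hom_ext _ _ fun x => T.val_inj ?_
    exact (T.val_mk' _ _).trans ((sset_comp (F.obj a) α β _).trans
      ((congrArg _ (T.val_mk' _ _).symm).trans (T.val_mk' _ _).symm))

/-- the small presheaf -/
noncomputable def S : Aᵒᵖ ⥤ SSet.{0} where
  obj a := T.objS a
  map {a b} f :=
    { app k := ↾ fun x => T.mk' ((F.map f).app k (T.val x)) (T.act f _ (T.val_mem x))
      naturality k l α := by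
        refine ConcreteCategory.hom_ext _ _ fun x => T.val_inj ?_
        exact (T.val_mk' _ _).trans ((congrArg _ (T.val_mk' _ _)).trans
          ((sset_nat (F.map f) α _).trans
          ((congrArg _ (T.val_mk' _ _).symm).trans (T.val_mk' _ _).symm))) }
  map_id a := by
    apply NatTrans.ext
    funext k
    refine ConcreteCategory.hom_ext _ _ fun x => T.val_inj ?_
    refine (T.val_mk' _ _).trans ?_
    rw [CategoryTheory.Functor.map_id]
    rfl
  map_comp {a b c} f g := by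
    apply NatTrans.ext
    funext k
    refine ConcreteCategory.hom_ext _ _ fun x => T.val_inj ?_
    refine (T.val_mk' _ _).trans (Eq.trans ?_
      ((congrArg _ (T.val_mk' _ _).symm).trans (T.val_mk' _ _).symm))
    rw [CategoryTheory.Functor.map_comp]
    rfl

theorem val_map {a : Aᵒᵖ} {k l : SimplexCategoryᵒᵖ} (α : k ⟶ l) (x : (T.S.obj a).obj k) :
    T.val ((T.S.obj a).map α x) = (F.obj a).map α (T.val x) := T.val_mk' _ _

/-- the inclusion -/
noncomputable def i : T.S ⋙ SSet.uliftFunctor.{1, 0} ⟶ F where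
  app a :=
    { app k := ↾ fun x => T.val x.down
      naturality k l α := by
        ext x
        exact T.val_mk' _ _ }
  naturality a b f := by
    ext k x
    exact T.val_mk' _ _

theorem i_app (a : Aᵒᵖ) (k : SimplexCategoryᵒᵖ)
    (x : ((T.S ⋙ SSet.uliftFunctor.{1, 0}).obj a).obj k) :
    (T.i.app a).app k x = T.val x.down := rfl

theorem mono_i (a : Aᵒᵖ) : Mono (T.i.app a) := by
  constructor
  intro Z g h hgh
  ext k x
  have := ConcreteCategory.congr_hom (NatTrans.congr_app hgh k) x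
  exact ULift.down_injective (T.val_inj this)

/-- maps with values in the subpresheaf -/
theorem exists_factor {X : SSet.{1}} {a : Aᵒᵖ} (φ : X ⟶ F.obj a)
    (hφ : ∀ k (x : X.obj k), φ.app k x ∈ T.P a k) :
    ∃ ψ : X ⟶ (T.S ⋙ SSet.uliftFunctor.{1, 0}).obj a, ψ ≫ T.i.app a = φ := by
  refine ⟨{ app := fun k => ↾ fun x => ULift.up (T.mk' (φ.app k x) (hφ k x)),
            naturality := fun k l α => ?_ }, ?_⟩
  · ext x
    refine ULift.down_injective (T.val_inj ?_)
    exact (T.val_mk' _ _).trans ((sset_nat φ α x).trans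
      ((congrArg _ (T.val_mk' _ _).symm).trans (T.val_mk' _ _).symm))
  · ext k x
    exact T.val_mk' _ _

/-- Kan complexes -/
theorem kan (hK : ∀ a, SSet.KanComplex (F.obj a))
    (hf : ∀ (a : Aᵒᵖ) (n : ℕ) (i : Fin (n + 2))
      (y : ∀ j : Fin (n + 2), j ≠ i → (F.obj a).obj (op ⦋n⦌)),
      (∀ j hj, y j hj ∈ T.P a _) → fillE y ∈ T.P a _) (a : Aᵒᵖ) :
    SSet.KanComplex (T.S.obj a) := by
  rw [kan_iff]
  intro n i y hy
  have hy' : CompE (fun j hj => T.val (y j hj)) := by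
    cases n with
    | zero => trivial
    | succ n =>
      intro j k hj hk hjk
      have h1 := congrArg T.val (hy j k hj hk hjk)
      rw [val_map, val_map] at h1
      exact h1
  refine ⟨T.mk' (fillE fun j hj => T.val (y j hj)) (hf a n i _ fun j hj => T.val_mem _), ?_⟩
  intro j hj
  apply T.val_inj
  exact (T.val_map _ _).trans ((congrArg _ (T.val_mk' _ _)).trans
    (fillE_spec (hK a) _ hy' j hj))

end Sub

/-! ### The closure -/

variable {F : Aᵒᵖ ⥤ SSet.{1}} {K : Aᵒᵖ → SSet.{0}}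
  (g : ∀ a, SSet.uliftFunctor.{1, 0}.obj (K a) ⟶ F.obj a)
  (H : ∀ a, F.obj a ⊗ Δ[1] ⟶ F.obj a)

/-- the closure -/
noncomputable def cl : Sub F where
  P a k := Set.range (ev g H (a := a) (k := k))
  act {a b} f {k} x := by
    rintro ⟨t, rfl⟩
    exact ⟨.act f t, rfl⟩
  map {a k l} α x := by
    rintro ⟨t, rfl⟩
    exact ⟨.map α t, rfl⟩
  small a k := inferInstance

theorem exists_small (F : Aᵒᵖ ⥤ SSet.{1}) (hK : ∀ a, SSet.KanComplex (F.obj a))
    (hs : ∀ a, ∃ (K : SSet.{0}) (f : F.obj a ⟶ SSet.uliftFunctor.{1, 0}.obj K), FL.HoEq f) :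
    ∃ (S : Aᵒᵖ ⥤ SSet.{0}) (i : S ⋙ SSet.uliftFunctor.{1, 0} ⟶ F), (∀ a, Mono (i.app a)) ∧
      (∀ a, SSet.KanComplex (S.obj a)) ∧ ∀ a, FL.HoEq (i.app a) := by
  have hs' : ∀ a, ∃ (K : SSet.{0}) (f : F.obj a ⟶ SSet.uliftFunctor.{1, 0}.obj K)
      (g : SSet.uliftFunctor.{1, 0}.obj K ⟶ F.obj a) (H : F.obj a ⊗ Δ[1] ⟶ F.obj a),
      SSet.ι₀ ≫ H = f ≫ g ∧ SSet.ι₁ ≫ H = 𝟙 _ := by
    intro a
    obtain ⟨K, f, g, h1, -⟩ := hs a
    obtain ⟨H, h2, h3⟩ := (Pool.Agent.Helper88.FL.htpy_iff _ _).1 h1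
    exact ⟨K, f, g, H, h2, h3⟩
  choose K f g H h0 h1 using hs'
  let T := cl g H
  refine ⟨T.S, T.i, T.mono_i, T.kan hK ?_, fun a => ?_⟩
  · intro a n i y hy
    choose t ht using hy
    refine ⟨.fil i t, ?_⟩
    change fillE (fun j hj => ev g H (t j hj)) = _
    congr 1
    funext j hj
    exact ht j hj
  · obtain ⟨g', hg'⟩ := T.exists_factor (g a) (fun k x => ⟨.gen a k x.down, rfl⟩)
    obtain ⟨H', hH'⟩ := T.exists_factor (T.i.app a ▷ Δ[1] ≫ H a) (by
      rintro k ⟨x, s⟩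
      obtain ⟨t, ht⟩ := T.val_mem x.down
      refine ⟨.hot (SSet.stdSimplex.objEquiv s) t, ?_⟩
      change (H a).app k (ev g H t, SSet.stdSimplex.objEquiv.symm (SSet.stdSimplex.objEquiv s)) = _
      rw [Equiv.symm_apply_apply, ht]
      rfl)
    have := T.mono_i a
    refine ⟨f a ≫ g', ?_, ?_⟩
    · refine (Pool.Agent.Helper88.FL.htpy_iff _ _).2 ⟨H', ?_, ?_⟩
      · rw [← cancel_mono (T.i.app a), Category.assoc, hH', ← Category.assoc, SSet.ι₀_comp,
          Category.assoc, h0, Category.assoc, Category.assoc, hg']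
      · rw [← cancel_mono (T.i.app a), Category.assoc, hH', ← Category.assoc, SSet.ι₁_comp,
          Category.assoc, h1, Category.comp_id, Category.id_comp]
    · rw [Category.assoc, hg']
      exact (Pool.Agent.Helper88.FL.htpy_iff _ _).2 ⟨H a, h0 a, h1 a⟩

end Sub

end Pool.Agent.Helper81.FLQ
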